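import Pool.Agent.U237.LI.Stm
import Pool.Agent.U307.NF.B

/-! Project LI, package EQ: equidistribution of the multiples `p β` by primes. -/

set_option autoImplicit false

namespace Pool.Agent.U358.LI

open Finset Filter Topology MeasureTheory
open Pool.Agent.H807R2.Dav (ee norm_ee)
open Pool.Agent.U237.NF.Lite (PB S_E S_C)
open Pool.Agent.U237.LI (Far S_EQ)
open ArithmeticFunction (vonMangoldt)

/-- approximation by trigonometric polynomials -/
lemma trig (φ : C(UnitAddCircle, ℝ)) (δ : ℝ) (hδ : 0 < δ) :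
    ∃ (K : Finset ℤ) (c : ℤ → ℂ), ∀ x : UnitAddCircle,
      ‖((φ x : ℝ) : ℂ) - ∑ k ∈ K, c k * (fourier k x : ℂ)‖ ≤ δ := by
  let ψ : C(UnitAddCircle, ℂ) := (⟨Complex.ofReal, Complex.continuous_ofReal⟩ : C(ℝ, ℂ)).comp φ
  have h1 : ψ ∈ (Submodule.span ℂ (Set.range (@fourier (1 : ℝ)))).topologicalClosure := by
    rw [span_fourier_closure_eq_top]
    exact Submodule.mem_top
  have h2 : ψ ∈ closure (Submodule.span ℂ (Set.range (@fourier (1 : ℝ))) :
      Set C(UnitAddCircle, ℂ)) := h1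
  rw [Metric.mem_closure_iff] at h2
  obtain ⟨T, hT, hd⟩ := h2 δ hδ
  obtain ⟨c, hc⟩ := (Finsupp.mem_span_range_iff_exists_finsupp).1 hT
  refine ⟨c.support, c, fun x => ?_⟩
  have h3 : (∑ k ∈ c.support, c k * (fourier k x : ℂ)) = T x := by
    rw [← hc, Finsupp.sum, ContinuousMap.coe_sum, Finset.sum_apply]
    rfl
  rw [h3]
  have h4 := ContinuousMap.dist_apply_le_dist (f := ψ) (g := T) x
  rw [dist_eq_norm] at h4
  exact h4.trans hd.le

/-- the integral of a character -/
lemma int_fourier (k : ℤ) (hk : k ≠ 0) : ∫ x : UnitAddCircle, (fourier k x : ℂ) = 0 := by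
  have h1 : ∫ x : UnitAddCircle, (fourier k x : ℂ) =
      ∫ x : UnitAddCircle, (fourier k (x + ((1 / 2 / (k : ℝ) : ℝ) : UnitAddCircle)) : ℂ) :=
    (integral_add_right_eq_self (fun x : UnitAddCircle => (fourier k x : ℂ)) _).symm
  have h2 : ∀ x : UnitAddCircle,
      (fourier k (x + ((1 / 2 / (k : ℝ) : ℝ) : UnitAddCircle)) : ℂ) = -(fourier k x : ℂ) :=
    fun x => fourier_add_half_inv_index hk one_pos x
  simp only [h2] at h1
  rw [integral_neg] at h1
  have h3 : (2 : ℂ) * ∫ x : UnitAddCircle, (fourier k x : ℂ) = 0 := by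
    linear_combination h1
  simpa using h3

theorem t_EQ : Pool.Agent.U237.NF.Lite.S_E → Pool.Agent.U237.NF.Lite.S_C →
    Pool.Agent.U237.LI.S_EQ := by
  intro hE hC φ ε hε
  obtain ⟨K, c, hKc⟩ := trig φ (ε / 4) (by linarith)
  set M : ℝ := ∑ k ∈ K, ‖c k‖ + 1 with hM
  have hM0 : 0 < M := by
    have : 0 ≤ ∑ k ∈ K, ‖c k‖ := Finset.sum_nonneg fun k _ => norm_nonneg _
    linarith
  set η : ℝ := ε / (16 * M) with hη
  have hη0 : 0 < η := by positivity
  obtain ⟨B1, N1, hB⟩ := hE η hη0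
  obtain ⟨y1, hy1, hps⟩ := Pool.Agent.U307.NF.prime_sum_le η hη0
  obtain ⟨y2, hy2⟩ := hC
  refine ⟨B1 * ∑ k ∈ K, k.natAbs, fun l hl => ?_⟩
  refine ⟨max (max y1 N1) (max y2 ⌈(B1 : ℝ) / l⌉₊), fun y hy β hβ => ?_⟩
  have a1 : y1 ≤ y := (le_max_left _ _).trans ((le_max_left _ _).trans hy)
  have a2 : N1 ≤ y := (le_max_right _ _).trans ((le_max_left _ _).trans hy)
  have a3 : y2 ≤ y := (le_max_left _ _).trans ((le_max_right _ _).trans hy)
  have a4 : (B1 : ℝ) / l ≤ y := (Nat.le_ceil _).trans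
    (by exact_mod_cast (le_max_right _ _).trans ((le_max_right _ _).trans hy))
  have hy0 : 2 ≤ y := hy1.trans a1
  have hyr : (0 : ℝ) < y := by exact_mod_cast (by omega : 0 < y)
  have hlog : 0 < Real.log y := Real.log_pos (by exact_mod_cast (by omega : 1 < y))
  have a5 : (B1 : ℝ) / y ≤ l := by
    rw [div_le_iff₀ hl] at a4
    rw [div_le_iff₀ hyr]
    linarith
  have hP : (y : ℝ) / Real.log y ≤ 2 * ((PB y).card : ℝ) := by
    have h1 := hy2 y a3
    have h2 : (y : ℝ) / (2 * Real.log y) = (y / Real.log y) / 2 := by field_simp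
    rw [h2] at h1
    linarith
  -- the sums over the primes
  have hk : ∀ k ∈ K, k ≠ 0 → ‖∑ p ∈ PB y, (fourier k (((p : ℝ) * β : ℝ) : UnitAddCircle) : ℂ)‖ ≤
      8 * η * (PB y).card := by
    intro k hkK hk0
    have h1 : ∀ p ∈ PB y, (fourier k (((p : ℝ) * β : ℝ) : UnitAddCircle) : ℂ) =
        ee ((p : ℝ) * ((k : ℝ) * β)) := by
      intro p _
      rw [fourier_coe_apply]
      unfold ee
      congr 1
      push_cast
      ring
    rw [Finset.sum_congr rfl h1]
    have h2 := hps y a1 ((k : ℝ) * β) (fun N hN hN2 => by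
      by_contra hcon
      push Not at hcon
      obtain ⟨b, hb1, hb2, a, hab⟩ := hB N (a2.trans hN) ((k : ℝ) * β) hcon.le
      have hkr : (0 : ℝ) < |(k : ℝ)| := abs_pos.2 (by exact_mod_cast hk0)
      have hk1 : (1 : ℝ) ≤ |(k : ℝ)| := by
        rw [← Int.cast_abs]
        exact_mod_cast Int.one_le_abs hk0
      have hNr : (y : ℝ) ≤ N := by exact_mod_cast hN
      have hb0 : (0 : ℝ) < b := by exact_mod_cast hb1
      have hkn : 1 ≤ k.natAbs := Int.natAbs_pos.2 hk0
      have h3 := hβ (k.natAbs * b) (Nat.mul_pos hkn hb1) (by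
        rw [mul_comm B1]
        exact Nat.mul_le_mul (Finset.single_le_sum (f := fun k : ℤ => k.natAbs)
          (fun _ _ => Nat.zero_le _) hkK) hb2) (k.sign * a)
      have h4 : β - ((k.sign * a : ℤ) : ℝ) / ((k.natAbs * b : ℕ) : ℝ) =
          ((k : ℝ) * β - a / b) / k := by
        have h5 : ((k.natAbs : ℕ) : ℝ) = k.sign * k := by
          rw [Nat.cast_natAbs, ← Int.sign_mul_self_eq_abs]
          push_cast
          rfl
        have h7 : ((k.sign : ℤ) : ℝ) ≠ 0 := by
          have h8 : k.sign ≠ 0 := by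
            rwa [Ne, Int.sign_eq_zero_iff_zero]
          exact_mod_cast h8
        have hkne : (k : ℝ) ≠ 0 := by exact_mod_cast hk0
        push_cast
        rw [h5]
        field_simp
      rw [h4, abs_div] at h3
      have h9 : |(k : ℝ) * β - a / b| / |(k : ℝ)| ≤ |(k : ℝ) * β - a / b| :=
        div_le_self (abs_nonneg _) hk1
      have h10 : (B1 : ℝ) / N ≤ B1 / y := by
        apply div_le_div_of_nonneg_left (Nat.cast_nonneg _) hyr hNr
      linarith)
    refine h2.trans ?_
    nlinarith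
  -- the integral
  have hint : ‖((∫ x, φ x : ℝ) : ℂ) - (if (0 : ℤ) ∈ K then c 0 else 0)‖ ≤ ε / 4 := by
    have hvol : (volume : Measure UnitAddCircle).real Set.univ = 1 := by
      rw [Measure.real, AddCircle.measure_univ]
      simp
    have hcont : Continuous (fun x : UnitAddCircle => ∑ k ∈ K, c k * (fourier k x : ℂ)) :=
      continuous_finsetSum _ fun k _ => continuous_const.mul (fourier k).continuous
    have h1 : ∫ x : UnitAddCircle, ∑ k ∈ K, c k * (fourier k x : ℂ) =
        if (0 : ℤ) ∈ K then c 0 else 0 := by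
      rw [integral_finsetSum]
      · have h2 : ∀ k ∈ K, ∫ x : UnitAddCircle, c k * (fourier k x : ℂ) =
            if k = 0 then c 0 else 0 := by
          intro k _
          rw [integral_const_mul]
          split_ifs with h
          · subst h
            simp only [fourier_zero, integral_const, hvol]
            simp
          · rw [int_fourier k h, mul_zero]
        rw [Finset.sum_congr rfl h2, Finset.sum_ite_eq' K 0 (fun _ => c 0)]
      · intro k _
        exact (continuous_const.mul (fourier k).continuous).integrable_of_hasCompactSupport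
          (HasCompactSupport.of_compactSpace _)
    have h3 : ((∫ x, φ x : ℝ) : ℂ) = ∫ x, ((φ x : ℝ) : ℂ) := integral_complex_ofReal.symm
    have hi1 : Integrable (fun x : UnitAddCircle => ((φ x : ℝ) : ℂ)) :=
      (Complex.continuous_ofReal.comp φ.continuous).integrable_of_hasCompactSupport
        (HasCompactSupport.of_compactSpace _)
    have hi2 : Integrable (fun x : UnitAddCircle => ∑ k ∈ K, c k * (fourier k x : ℂ)) :=
      hcont.integrable_of_hasCompactSupport (HasCompactSupport.of_compactSpace _)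
    rw [h3, ← h1, ← integral_sub hi1 hi2]
    have h4 := norm_integral_le_of_norm_le_const (μ := (volume : Measure UnitAddCircle))
      (f := fun x => ((φ x : ℝ) : ℂ) - ∑ k ∈ K, c k * (fourier k x : ℂ)) (C := ε / 4)
      (Filter.Eventually.of_forall hKc)
    rwa [hvol, mul_one] at h4
  -- summing up
  set c0 : ℂ := if (0 : ℤ) ∈ K then c 0 else 0 with hc0
  have hmid : ‖∑ p ∈ PB y, (∑ k ∈ K, c k * (fourier k (((p : ℝ) * β : ℝ) : UnitAddCircle) : ℂ)) -
      ((PB y).card : ℂ) * c0‖ ≤ ε / 2 * (PB y).card := by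
    have h1 : ∑ p ∈ PB y, (∑ k ∈ K, c k * (fourier k (((p : ℝ) * β : ℝ) : UnitAddCircle) : ℂ)) -
        ((PB y).card : ℂ) * c0 = ∑ k ∈ K, (if k = 0 then 0 else
          c k * ∑ p ∈ PB y, (fourier k (((p : ℝ) * β : ℝ) : UnitAddCircle) : ℂ)) := by
      rw [Finset.sum_comm]
      have h2 : ((PB y).card : ℂ) * c0 = ∑ k ∈ K, (if k = 0 then ((PB y).card : ℂ) * c 0 else 0) := by
        rw [Finset.sum_ite_eq' K 0 (fun _ => ((PB y).card : ℂ) * c 0), hc0]
        split_ifs <;> simp
      rw [h2, ← Finset.sum_sub_distrib]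
      refine Finset.sum_congr rfl fun k _ => ?_
      split_ifs with h
      · subst h
        simp only [fourier_zero, mul_one, Finset.sum_const, nsmul_eq_mul, sub_self]
      · rw [sub_zero, Finset.mul_sum]
    rw [h1]
    calc _ ≤ ∑ k ∈ K, ‖c k‖ * (8 * η * (PB y).card) := by
          refine (norm_sum_le _ _).trans (Finset.sum_le_sum fun k hkK => ?_)
          split_ifs with h
          · rw [norm_zero]
            positivity
          · rw [norm_mul]
            exact mul_le_mul_of_nonneg_left (hk k hkK h) (norm_nonneg _)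
      _ = (∑ k ∈ K, ‖c k‖) * (8 * η * (PB y).card) := by rw [Finset.sum_mul]
      _ ≤ M * (8 * η * (PB y).card) := by
          apply mul_le_mul_of_nonneg_right _ (by positivity)
          linarith
      _ = ε / 2 * (PB y).card := by
          rw [hη]
          field_simp
          ring
  have hfin : ((∑ p ∈ PB y, φ ((((p : ℝ) * β : ℝ)) : UnitAddCircle) -
      ((PB y).card : ℝ) * ∫ x, φ x : ℝ) : ℂ) =
      ∑ p ∈ PB y, (((φ ((((p : ℝ) * β : ℝ)) : UnitAddCircle) : ℝ) : ℂ) -
        ∑ k ∈ K, c k * (fourier k (((p : ℝ) * β : ℝ) : UnitAddCircle) : ℂ)) +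
      (∑ p ∈ PB y, (∑ k ∈ K, c k * (fourier k (((p : ℝ) * β : ℝ) : UnitAddCircle) : ℂ)) -
        ((PB y).card : ℂ) * c0) -
      ((PB y).card : ℂ) * (((∫ x, φ x : ℝ) : ℂ) - c0) := by
    rw [Finset.sum_sub_distrib]
    push_cast
    ring
  have hn : |∑ p ∈ PB y, φ ((((p : ℝ) * β : ℝ)) : UnitAddCircle) -
      ((PB y).card : ℝ) * ∫ x, φ x| = ‖((∑ p ∈ PB y, φ ((((p : ℝ) * β : ℝ)) : UnitAddCircle) -
      ((PB y).card : ℝ) * ∫ x, φ x : ℝ) : ℂ)‖ := by
    rw [Complex.norm_real, Real.norm_eq_abs]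
  rw [hn, hfin]
  have h1 : ‖∑ p ∈ PB y, (((φ ((((p : ℝ) * β : ℝ)) : UnitAddCircle) : ℝ) : ℂ) -
        ∑ k ∈ K, c k * (fourier k (((p : ℝ) * β : ℝ) : UnitAddCircle) : ℂ))‖ ≤
      (PB y).card * (ε / 4) := by
    refine (norm_sum_le _ _).trans ?_
    calc _ ≤ ∑ _p ∈ PB y, ε / 4 := Finset.sum_le_sum fun p _ => hKc _
      _ = _ := by rw [Finset.sum_const, nsmul_eq_mul]
  have h2 : ‖((PB y).card : ℂ) * (((∫ x, φ x : ℝ) : ℂ) - c0)‖ ≤ (PB y).card * (ε / 4) := by
    rw [norm_mul, Complex.norm_natCast]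
    exact mul_le_mul_of_nonneg_left hint (Nat.cast_nonneg _)
  refine (norm_sub_le _ _).trans ?_
  have h3 := norm_add_le (∑ p ∈ PB y, (((φ ((((p : ℝ) * β : ℝ)) : UnitAddCircle) : ℝ) : ℂ) -
        ∑ k ∈ K, c k * (fourier k (((p : ℝ) * β : ℝ) : UnitAddCircle) : ℂ)))
      (∑ p ∈ PB y, (∑ k ∈ K, c k * (fourier k (((p : ℝ) * β : ℝ) : UnitAddCircle) : ℂ)) -
        ((PB y).card : ℂ) * c0)
  linarith

end Pool.Agent.U358.LI
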